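import Pool.Agent.helper13.U4.SpecD

set_option autoImplicit false

/-! Row `u4:PC` (after `Pool/Agent/helper45/U4/PD.lean`). -/

namespace Pool.Agent.U4

open Pool.Agent.UL

theorem PC (h1 : PRM_stmt) : PC_stmt := by
  intro k q h v x hP hL hH τ hτ1 hτ2 hpar hx1 hx2 hx3
  obtain ⟨b, e, hb, he, heq, hb0, hb1, hs⟩ := h1 k q h v hP τ hτ1 hτ2
  obtain ⟨hk, hh, hq, hv⟩ := hP
  have h4 : h % 4 = 0 := by
    obtain ⟨m, rfl⟩ := Nat.exists_eq_add_of_le hk
    rw [hh, pow_add]
    norm_num
  have hpos : 4 ≤ h := by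
    have : 0 < h := by rw [hh]; positivity
    omega
  have hv15 : 15 * h ≤ v + 1 := by
    rw [hv]
    nlinarith
  have hTlt : ∀ a d, 1 ≤ a → a ≤ 11 → d < h → (2 * q - a) * h + d < v := by
    intro a d ha1 ha2 hd
    have e1 : (2 * q - a) * h + a * h = 2 * q * h := by
      rw [← Nat.add_mul]
      congr 1
      omega
    have e2 : h ≤ a * h := Nat.le_mul_of_pos_left h ha1
    have e3 : 2 * h * q = 2 * q * h := by ring
    rw [e3] at hv
    omega
  have hTx : ∀ a d, 1 ≤ a → a ≤ 11 → a % 2 = 1 → d % 2 = 1 → d < h →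
      x ((2 * q - a) * h + d) (2 * h + 1) = true := by
    intro a d ha1 ha2 ha3 hd1 hd2
    have hlt := (hTlt a d ha1 ha2 hd2).le
    exact hH.b1 (2 * q - a) d (by omega) hd1 hd2 hlt
  have hUx : ∀ B d, B = 7 ∨ B = 9 ∨ B = 11 → d < h → d % 2 = 1 →
      x (B * h + d) (2 * h + 2) = true ∧ B * h + d < v := by
    rintro B d (rfl | rfl | rfl) hd hd2
    · exact ⟨hH.b2 7 d (by omega) (by omega) hd2 hd (by omega), by omega⟩
    · exact ⟨hH.b2 9 d (by omega) (by omega) hd2 hd (by omega), by omega⟩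
    · exact ⟨hH.b2 11 d (by omega) (by omega) hd2 hd (by omega), by omega⟩
  have fin : ∀ t1 u1 t2 u2 : ℕ, t1 + u1 = τ → t2 + u2 = τ → u1 ≠ u2 → t1 < v → t2 < v → u1 < v → u2 < v →
      x t1 (2 * h + 1) = true → x t2 (2 * h + 1) = true → x u1 (2 * h + 2) = true → x u2 (2 * h + 2) = true →
      Pr2 v x (4 * h + 3) τ := by
    intro t1 u1 t2 u2 e1 e2 e3 e4 e5 e6 e7 e8 e9 e10 e11
    exact ⟨2 * h + 1, 2 * h + 2, t1, u1, t2, u2, by omega, by omega, by omega, e1, e2, e4, e6, e5, e7, e8, e10, e9, e11⟩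
  -- `e` is odd
  have hbh : (b * h) % 2 = 0 := by
    have : h % 2 = 0 := by omega
    rw [Nat.mul_mod, this, mul_zero, Nat.zero_mod]
  have heo : e % 2 = 1 := by omega
  rcases Nat.mod_two_eq_zero_or_one b with hpb | hpb
  · have he3 : 3 ≤ e := by
      by_contra hlt
      have he1 : e = 1 := by omega
      have hb6 : b = 0 ∨ b = 2 ∨ b = 4 ∨ b = 6 := by omega
      rcases hb6 with rfl | rfl | rfl | rfl
      · have := hb0 rfl
        omega
      · exact hx1 (by omega)
      · exact hx2 (by omega)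
      · exact hx3 (by omega)
    have s1 := hs (9 - b) (h + 1 - e) (by omega) (by omega) (by omega)
    have s2 := hs (11 - b) (h + 1 - e) (by omega) (by omega) (by omega)
    rw [show b + (9 - b) - 1 = 8 by omega, show 8 * h + (e + (h + 1 - e)) = 9 * h + 1 by omega] at s1
    rw [show b + (11 - b) - 1 = 10 by omega, show 10 * h + (e + (h + 1 - e)) = 11 * h + 1 by omega] at s2
    obtain ⟨u1, u2⟩ := hUx 9 1 (by omega) (by omega) (by omega)
    obtain ⟨u3, u4⟩ := hUx 11 1 (by omega) (by omega) (by omega)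
    exact fin _ _ _ _ s1 s2 (by omega) (hTlt _ _ (by omega) (by omega) (by omega))
      (hTlt _ _ (by omega) (by omega) (by omega)) u2 u4
      (hTx _ _ (by omega) (by omega) (by omega) (by omega) (by omega))
      (hTx _ _ (by omega) (by omega) (by omega) (by omega) (by omega)) u1 u3
  · have s1 := hs (8 - b) 0 (by omega) (by omega) (by omega)
    have s2 := hs (10 - b) 0 (by omega) (by omega) (by omega)
    rw [show b + (8 - b) - 1 = 7 by omega] at s1
    rw [show b + (10 - b) - 1 = 9 by omega] at s2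
    obtain ⟨u1, u2⟩ := hUx 7 e (by omega) he heo
    obtain ⟨u3, u4⟩ := hUx 9 e (by omega) he heo
    exact fin _ _ _ _ s1 s2 (by omega) (hTlt _ _ (by omega) (by omega) (by omega))
      (hTlt _ _ (by omega) (by omega) (by omega)) u2 u4
      (hTx _ _ (by omega) (by omega) (by omega) (by omega) (by omega))
      (hTx _ _ (by omega) (by omega) (by omega) (by omega) (by omega)) u1 u3

end Pool.Agent.U4
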